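import Pool.Agent.Helper85.LN2.Goals

/-! Packet LAMPM (MP_d0c558_al, project LN2 of helper85). -/

namespace Pool.Agent.Helper69.LN2

open Pool.Agent.Helper85.LN Pool.Agent.Helper85.LN2

theorem lampm : S_LAMPM := by
  intro m d A hLN hL
  obtain ⟨hcomm, A₁, hA₁G, hidx, hA₁⟩ := hL
  have hconj : ∀ (g k : Equiv.Perm (List (Fin d))), IsOfFinOrder k → IsOfFinOrder (g * k * g⁻¹) := by
    intro g k hk
    rw [isOfFinOrder_iff_pow_eq_one] at hk ⊢
    obtain ⟨n, hn, hkn⟩ := hk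
    refine ⟨n, hn, ?_⟩
    rw [conj_pow, hkn]
    group
  let K : Subgroup (Equiv.Perm (List (Fin d))) :=
    { carrier := {g | g ∈ A.G ∧ IsOfFinOrder g}
      mul_mem' := by
        rintro g h ⟨hg, hg'⟩ ⟨hh, hh'⟩
        exact ⟨A.G.mul_mem hg hh,
          Commute.isOfFinOrder_mul (hcomm g hg h hh hg' hh') hg' hh'⟩
      one_mem' := ⟨A.G.one_mem, IsOfFinOrder.one⟩
      inv_mem' := by
        rintro g ⟨hg, hg'⟩
        exact ⟨A.G.inv_mem hg, hg'.inv⟩ }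
  have hKG : K ≤ A.G := fun g hg => hg.1
  have hKn : ∀ g ∈ A.G, ∀ k ∈ K, g * k * g⁻¹ ∈ K := by
    intro g hg k hk
    exact ⟨A.G.mul_mem (A.G.mul_mem hg hk.1) (A.G.inv_mem hg), hconj g k hk.2⟩
  have hprod : ∀ x ∈ A₁ ⊔ K, ∃ g ∈ A₁, ∃ k ∈ K, x = g * k := by
    intro x hx
    rw [Subgroup.sup_eq_closure] at hx
    induction hx using Subgroup.closure_induction with
    | mem x hx =>
      rcases hx with hx | hx
      · exact ⟨x, hx, 1, K.one_mem, by simp⟩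
      · exact ⟨1, A₁.one_mem, x, hx, by simp⟩
    | one => exact ⟨1, A₁.one_mem, 1, K.one_mem, by simp⟩
    | mul x y _ _ ihx ihy =>
      obtain ⟨g, hg, k, hk, rfl⟩ := ihx
      obtain ⟨g', hg', k', hk', rfl⟩ := ihy
      refine ⟨g * g', A₁.mul_mem hg hg', (g'⁻¹ * k * g'⁻¹⁻¹) * k', ?_, by group⟩
      exact K.mul_mem (hKn _ (A.G.inv_mem (hA₁G hg')) _ hk) hk'
    | inv x _ ihx =>
      obtain ⟨g, hg, k, hk, rfl⟩ := ihx
      refine ⟨g⁻¹, A₁.inv_mem hg, g * k⁻¹ * g⁻¹, ?_, by group⟩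
      exact hKn _ (hA₁G hg) _ (K.inv_mem hk)
  refine ⟨K, A₁ ⊔ K, le_sup_right, sup_le hA₁G hKG, ?_, hKn, ?_, ?_, ?_⟩
  · intro h0
    have hd := Subgroup.relIndex_dvd_of_le_left A.G (le_sup_left : A₁ ≤ A₁ ⊔ K)
    rw [h0, zero_dvd_iff] at hd
    exact hidx hd
  · intro k hk k' hk'
    exact hcomm k hk.1 k' hk'.1 hk.2 hk'.2
  · intro x hx y hy
    obtain ⟨g, hg, k, hk, rfl⟩ := hprod x hx
    obtain ⟨g', hg', k', hk', rfl⟩ := hprod y hy
    have hgG := hA₁G hg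
    have hgG' := hA₁G hg'
    have hc : g * g' * g⁻¹ * g'⁻¹ ∈ K :=
      ⟨A.G.mul_mem (A.G.mul_mem (A.G.mul_mem hgG hgG') (A.G.inv_mem hgG)) (A.G.inv_mem hgG'),
        hA₁ g hg g' hg'⟩
    have e : g * k * (g' * k') * (g * k)⁻¹ * (g' * k')⁻¹ =
        (g * k * g⁻¹) * ((g * g') * (k' * k⁻¹) * (g * g')⁻¹) * (g * g' * g⁻¹ * g'⁻¹) *
          (g' * k'⁻¹ * g'⁻¹) := by group
    rw [e]
    refine K.mul_mem (K.mul_mem (K.mul_mem (hKn _ hgG _ hk) ?_) hc) (hKn _ hgG' _ (K.inv_mem hk'))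
    exact hKn _ (A.G.mul_mem hgG hgG') _ (K.mul_mem hk' (K.inv_mem hk))
  · intro g hg h hh a hgh
    have hpow : ∀ (n : ℕ) w, (g ^ n) (a :: w) = a :: (h ^ n) w := by
      intro n
      induction n with
      | zero => intro w; simp
      | succ n ih =>
        intro w
        rw [pow_succ, pow_succ, Equiv.Perm.mul_apply, Equiv.Perm.mul_apply, hgh, ih]
    constructor
    · rintro ⟨_, hgf⟩
      refine ⟨hh, ?_⟩
      rw [isOfFinOrder_iff_pow_eq_one] at hgf ⊢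
      obtain ⟨n, hn, hgn⟩ := hgf
      refine ⟨n, hn, ?_⟩
      ext1 w
      have h1 := hpow n w
      rw [hgn] at h1
      simp only [Equiv.Perm.coe_one, id_eq, List.cons.injEq, true_and] at h1
      rw [← h1]
      rfl
    · rintro ⟨_, hhf⟩
      refine ⟨hg, ?_⟩
      rw [isOfFinOrder_iff_pow_eq_one] at hhf ⊢
      obtain ⟨n, hn, hhn⟩ := hhf
      refine ⟨n, hn, ?_⟩
      apply hLN (g ^ n) (A.G.pow_mem hg n) [a]
      intro w
      have h1 := hpow n w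
      rw [hhn] at h1
      simpa using h1

end Pool.Agent.Helper69.LN2
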